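import Mathlib
import Pool.Agent.Results.MP_7489fb_co.ATwoSided

set_option autoImplicit false

namespace Pool.Agent.Results.MP_7489fb_co.LowerAllN

open Pool.Agent.Results.MP_7489fb_co.AsymptoticUpperBound
open Pool.Agent.Results.MP_7489fb_co.ATwoSided

/-- value of a functional on a set -/
abbrev ev {n : ℕ} (t : Om n) (A : Finset (Fin n)) : ZMod 4 := ∑ j ∈ A, t.1 j

/-- sign of parity -/
def chi (v : ZMod 4) : ℤ := if v = 0 ∨ v = 2 then 1 else -1

lemma chi_add (a b : ZMod 4) : chi (a + b) = chi a * chi b := by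
  revert a b; decide

lemma chi_two_mul (a : ZMod 4) : chi (2 * a) = 1 := by
  revert a; decide

lemma tw_mul (a b : ZMod 4) : tw (a * b) = tw a * od b + od a * tw b := by
  revert a b; decide

lemma tw_prod {ι : Type*} [DecidableEq ι] (s : Finset ι) (v : ι → ZMod 4) :
    tw (∏ i ∈ s, v i) = ∑ i ∈ s, tw (v i) * ∏ j ∈ s.erase i, od (v j) := by
  induction s using Finset.induction_on with
  | empty => 
    simp only [Finset.prod_empty, Finset.sum_empty]
    decide
  | insert a s ha ih =>
    rw [Finset.prod_insert ha, tw_mul, ih, Finset.sum_insert ha, Finset.erase_insert ha, od_prod,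
      Finset.mul_sum]
    congr 1
    apply Finset.sum_congr rfl
    intro i hi
    have hia : i ≠ a := by rintro rfl; exact ha hi
    rw [Finset.erase_insert_of_ne hia.symm, Finset.prod_insert]
    · ring
    · intro h
      exact ha (Finset.mem_of_mem_erase h)

lemma od_cast (v : ZMod 4) : ((od v : ℕ) : ZMod 2) = (ZMod.castHom (by norm_num : 2 ∣ 4) (ZMod 2)) v := by
  revert v; decide

/-- a multiset of residues with sum two has an even number of odd elements -/
lemma even_od (M : Multiset (ZMod 4)) (h : M.sum = 2) : Even (M.map od).sum := by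
  have h1 : (((M.map od).sum : ℕ) : ZMod 2) = (ZMod.castHom (by norm_num : 2 ∣ 4) (ZMod 2)) M.sum := by
    clear h
    induction M using Multiset.induction_on with
    | empty => simp
    | cons a s ih =>
      rw [Multiset.map_cons, Multiset.sum_cons, Multiset.sum_cons, map_add, ← ih, ← od_cast]
      push_cast; rfl
  rw [h] at h1
  have h2 : (ZMod.castHom (by norm_num : 2 ∣ 4) (ZMod 2)) (2 : ZMod 4) = 0 := by decide
  rw [h2] at h1
  rw [ZMod.natCast_eq_zero_iff] at h1
  exact even_iff_two_dvd.2 h1

/-- a multiset of even residues with sum two has an odd number of twos -/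
lemma odd_tw (M : Multiset (ZMod 4)) (h : M.sum = 2) (h0 : ∀ v ∈ M, od v = 0) :
    Odd (M.map tw).sum := by
  have h1 : 2 * (((M.map tw).sum : ℕ) : ZMod 4) = M.sum := by
    clear h
    induction M using Multiset.induction_on with
    | empty => simp
    | cons a s ih =>
      rw [Multiset.map_cons, Multiset.sum_cons, Multiset.sum_cons,
        ← ih (fun v hv => h0 v (Multiset.mem_cons_of_mem hv))]
      have ha := h0 a (Multiset.mem_cons_self _ _)
      have : 2 * ((tw a : ℕ) : ZMod 4) = a := by
        clear h0 ih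
        revert a; decide
      push_cast
      rw [mul_add, this]
  rw [h] at h1
  by_contra hcon
  rw [Nat.not_odd_iff_even] at hcon
  obtain ⟨k, hk⟩ := hcon
  rw [hk] at h1
  push_cast at h1
  have h3 : ∀ k : ZMod 4, 2 * (k + k) ≠ 2 := by decide
  exact h3 _ h1

lemma sum_by_value {n : ℕ} (A : Finset (Fin n)) (φ : ZMod 4 → ℤ) :
    ∑ t : Om n, φ (ev t A) = ∑ v : ZMod 4, (cnt n A v : ℤ) * φ v := by
  classical
  have : ∀ v : ZMod 4, (cnt n A v : ℤ) * φ v =
      ∑ t : Om n, if ev t A = v then φ v else 0 := by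
    intro v
    unfold cnt
    rw [← Finset.sum_filter, Finset.sum_const, nsmul_eq_mul]
  rw [Finset.sum_congr rfl (fun v _ => this v), Finset.sum_comm]
  apply Finset.sum_congr rfl
  intro t _
  simp

lemma sum_chi {n : ℕ} (A : Finset (Fin n)) (h1 : A.Nonempty) (h2 : A ≠ Finset.univ) :
    ∑ t : Om n, chi (ev t A) = 0 := by
  rw [sum_by_value A chi]
  have h := fun v w => cnt_eq n A h1 h2 v w
  rw [Finset.sum_congr rfl (fun v _ => by rw [h v 0])]
  rw [← Finset.mul_sum]
  have : ∑ v : ZMod 4, chi v = 0 := by decide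
  rw [this, mul_zero]

lemma sum_chi_le {n : ℕ} (A : Finset (Fin n)) (h1 : A.Nonempty) :
    ∑ t : Om n, chi (ev t A) ≤ 0 := by
  by_cases h2 : A = Finset.univ
  · subst h2
    apply Finset.sum_nonpos
    intro t _
    have := t.2
    unfold ev
    rw [this]
    decide
  · exact (sum_chi A h1 h2).le

lemma chi_mul_ev {n : ℕ} (t : Om n) (A B : Finset (Fin n)) :
    chi (ev t A) * chi (ev t B) = chi (ev t (symmDiff A B)) := by
  have h : ev t A + ev t B = ev t (symmDiff A B) + 2 * ev t (A ∩ B) := by
    have e1 : ev t A = ev t (A \ B) + ev t (A ∩ B) := by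
      unfold ev
      rw [← Finset.sum_union (Finset.disjoint_sdiff_inter A B), Finset.sdiff_union_inter]
    have e2 : ev t B = ev t (B \ A) + ev t (A ∩ B) := by
      unfold ev
      rw [Finset.inter_comm, ← Finset.sum_union (Finset.disjoint_sdiff_inter B A),
        Finset.sdiff_union_inter]
    have e3 : ev t (symmDiff A B) = ev t (A \ B) + ev t (B \ A) := by
      unfold ev
      rw [symmDiff_def, Finset.sup_eq_union, Finset.sum_union]
      exact disjoint_sdiff_sdiff
    rw [e1, e2, e3]; ring
  rw [← chi_add, h, chi_add, chi_two_mul, mul_one]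

/-- two distinct proper sets are simultaneously even for at most a quarter of the functionals -/
lemma quarter {n : ℕ} (A B : Finset (Fin n)) (hA : A.Nonempty) (hA' : A ≠ Finset.univ)
    (hB : B.Nonempty) (hB' : B ≠ Finset.univ) (hAB : A ≠ B) :
    4 * (Finset.univ.filter (fun t : Om n => od (ev t A) = 0 ∧ od (ev t B) = 0)).card ≤
      Fintype.card (Om n) := by
  classical
  have h1 : ∀ t : Om n, (4 : ℤ) * (if od (ev t A) = 0 ∧ od (ev t B) = 0 then 1 else 0) =
      (1 + chi (ev t A) + chi (ev t B) + chi (ev t (symmDiff A B))) := by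
    intro t
    rw [← chi_mul_ev]
    generalize ev t A = a
    generalize ev t B = b
    revert a b; decide
  have h2 : (4 : ℤ) * ((Finset.univ.filter (fun t : Om n => od (ev t A) = 0 ∧ od (ev t B) = 0)).card : ℤ) ≤
      (Fintype.card (Om n) : ℤ) := by
    rw [Finset.card_filter]
    push_cast
    rw [Finset.mul_sum, Finset.sum_congr rfl (fun t _ => h1 t)]
    rw [Finset.sum_add_distrib, Finset.sum_add_distrib, Finset.sum_add_distrib,
      sum_chi A hA hA', sum_chi B hB hB']
    have h3 : (symmDiff A B).Nonempty := by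
      rw [Finset.nonempty_iff_ne_empty]
      intro h
      exact hAB (symmDiff_eq_bot.1 h)
    have h4 := sum_chi_le (symmDiff A B) h3
    simp only [Finset.sum_const, Finset.card_univ, nsmul_eq_mul, mul_one]
    linarith
  exact_mod_cast h2

/-- the functional concentrated in one point -/
def pt {n : ℕ} (a : Fin n) : Om n := ⟨Pi.single a 1, by rw [Finset.sum_pi_single']; simp⟩

lemma ev_pt {n : ℕ} (a : Fin n) (A : Finset (Fin n)) : ev (pt a) A = if a ∈ A then 1 else 0 := by
  unfold ev pt
  rw [Finset.sum_pi_single']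

lemma sum_od {n : ℕ} (A : Finset (Fin n)) (h1 : A.Nonempty) (h2 : A ≠ Finset.univ) :
    2 * ∑ t : Om n, od (ev t A) = Fintype.card (Om n) := by
  have h := sum_chi A h1 h2
  have h3 : ∀ t : Om n, chi (ev t A) = 1 - 2 * (od (ev t A) : ℤ) := by
    intro t
    generalize ev t A = v
    revert v; decide
  rw [Finset.sum_congr rfl (fun t _ => h3 t), Finset.sum_sub_distrib, ← Finset.mul_sum] at h
  simp only [Finset.sum_const, Finset.card_univ, nsmul_eq_mul, mul_one] at h
  have h4 : (2 : ℤ) * ∑ t : Om n, (od (ev t A) : ℤ) = (Fintype.card (Om n) : ℤ) := by linarith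
  exact_mod_cast h4

lemma sum_sum_od {n : ℕ} (Q : Multiset (Finset (Fin n)))
    (hQ : ∀ A ∈ Q, A.Nonempty ∧ A ≠ Finset.univ) :
    2 * ∑ t : Om n, (Q.map (fun A => od (ev t A))).sum = Multiset.card Q * Fintype.card (Om n) := by
  induction Q using Multiset.induction_on with
  | empty => simp
  | cons A Q ih =>
    simp only [Multiset.map_cons, Multiset.sum_cons, Multiset.card_cons]
    rw [Finset.sum_add_distrib, mul_add, ih (fun B hB => hQ B (Multiset.mem_cons_of_mem hB)),
      sum_od A (hQ A (Multiset.mem_cons_self _ _)).1 (hQ A (Multiset.mem_cons_self _ _)).2]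
    ring

/-- **Line lemma.** -/
lemma line {n : ℕ} (Q : Multiset (Finset (Fin n)))
    (hQ : ∀ A ∈ Q, A.Nonempty ∧ A ≠ Finset.univ)
    (hev : ∀ t : Om n, Even (Q.map (fun A => od (ev t A))).sum) :
    6 * (Finset.univ.filter (fun t : Om n => (Q.map (fun A => od (ev t A))).sum = 0 ∧
      Odd (Q.map (fun A => tw (ev t A))).sum)).card ≤
      ∑ t : Om n, (Q.map (fun A => od (ev t A))).sum := by
  classical
  rcases Finset.eq_empty_or_nonempty (Finset.univ.filter
    (fun t : Om n => (Q.map (fun A => od (ev t A))).sum = 0 ∧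
      Odd (Q.map (fun A => tw (ev t A))).sum)) with hE | ⟨t0, ht0⟩
  · rw [hE]; simp
  rw [Finset.mem_filter] at ht0
  obtain ⟨-, ht1, ht2⟩ := ht0
  have hne : Q ≠ 0 := by
    rintro rfl
    simp at ht2
  obtain ⟨A, hA⟩ := Multiset.exists_mem_of_ne_zero hne
  -- there is a second set
  have hB : ∃ B ∈ Q, B ≠ A := by
    by_contra hcon
    push Not at hcon
    have hrep : Q = Multiset.replicate (Multiset.card Q) A := Multiset.eq_replicate.2 ⟨rfl, hcon⟩
    obtain ⟨a, ha⟩ := (hQ A hA).1
    have h1 := hev (pt a)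
    rw [hrep, Multiset.map_replicate, Multiset.sum_replicate, ev_pt, if_pos ha] at h1
    rw [hrep, Multiset.map_replicate, Multiset.sum_replicate] at ht2
    have h2 : od 1 = 1 := by decide
    rw [h2, smul_eq_mul, mul_one] at h1
    rw [smul_eq_mul, Nat.odd_mul] at ht2
    exact (Nat.not_odd_iff_even.2 h1) ht2.1
  obtain ⟨B, hB, hBA⟩ := hB
  -- at least three sets
  have hcard : 3 ≤ Multiset.card Q := by
    obtain ⟨Q', hQ'⟩ := Multiset.exists_cons_of_mem hA
    have hB' : B ∈ Q' := by
      rw [hQ', Multiset.mem_cons] at hB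
      exact hB.resolve_left hBA
    obtain ⟨Q'', hQ''⟩ := Multiset.exists_cons_of_mem hB'
    rw [hQ', hQ'', Multiset.card_cons, Multiset.card_cons]
    by_contra hcon
    have h0 : Q'' = 0 := by
      rw [← Multiset.card_eq_zero]; omega
    rw [h0] at hQ''
    rw [hQ''] at hQ'
    have h3 : ∀ x, x ∈ A ↔ x ∈ B := by
      intro x
      have h4 := hev (pt x)
      rw [hQ'] at h4
      simp only [Multiset.map_cons, Multiset.sum_cons, Multiset.map_zero, Multiset.sum_zero, ev_pt]
        at h4
      have h5 : od 1 = 1 := by decide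
      have h6 : od 0 = 0 := by decide
      by_cases hxA : x ∈ A <;> by_cases hxB : x ∈ B <;>
        simp [hxA, hxB, h5, h6] at h4 ⊢
    exact hBA (Finset.ext h3).symm
  have hq := quarter A B (hQ A hA).1 (hQ A hA).2 (hQ B hB).1 (hQ B hB).2 hBA.symm
  have hsub : (Finset.univ.filter (fun t : Om n => (Q.map (fun A => od (ev t A))).sum = 0 ∧
      Odd (Q.map (fun A => tw (ev t A))).sum)).card ≤
      (Finset.univ.filter (fun t : Om n => od (ev t A) = 0 ∧ od (ev t B) = 0)).card := by
    apply Finset.card_le_card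
    intro t ht
    rw [Finset.mem_filter] at ht ⊢
    obtain ⟨-, h1, -⟩ := ht
    rw [Multiset.sum_eq_zero_iff] at h1
    exact ⟨Finset.mem_univ _, h1 _ (Multiset.mem_map_of_mem _ hA),
      h1 _ (Multiset.mem_map_of_mem _ hB)⟩
  have hs := sum_sum_od Q hQ
  nlinarith

/-- summing over the updates in one coordinate -/
lemma sum_update {d : ℕ} {Ω : Type} [Fintype Ω] (g : (Fin d → Ω) → ℕ) (i : Fin d) :
    ∑ T : Fin d → Ω, ∑ t : Ω, g (Function.update T i t) = Fintype.card Ω * ∑ T, g T := by
  classical
  have h1 : ∑ T : Fin d → Ω, ∑ t : Ω, g (Function.update T i t) =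
      ∑ p : (Fin d → Ω) × Ω, g (Function.update p.1 i p.2) := by
    rw [Fintype.sum_prod_type]
  have h2 : Fintype.card Ω * ∑ T, g T = ∑ p : (Fin d → Ω) × Ω, g p.1 := by
    rw [Fintype.sum_prod_type]
    simp only [Finset.sum_const, Finset.card_univ, smul_eq_mul]
    rw [Finset.mul_sum]
  rw [h1, h2]
  let e : ((Fin d → Ω) × Ω) ≃ ((Fin d → Ω) × Ω) :=
    { toFun := fun p => (Function.update p.1 i p.2, p.1 i)
      invFun := fun p => (Function.update p.1 i p.2, p.1 i)
      left_inv := by
        rintro ⟨T, t⟩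
        simp
      right_inv := by
        rintro ⟨T, t⟩
        simp }
  exact Fintype.sum_equiv e _ _ (fun p => rfl)

lemma sum_ite_filter {α : Type*} (F : Multiset α) (p : α → Prop) [DecidablePred p] (h : α → ℕ) :
    (F.map (fun B => if p B then h B else 0)).sum = ((F.filter p).map h).sum := by
  induction F using Multiset.induction_on with
  | empty => simp
  | cons B F ih =>
    rw [Multiset.map_cons, Multiset.sum_cons, ih]
    by_cases hp : p B
    · rw [Multiset.filter_cons_of_pos _ hp, Multiset.map_cons, Multiset.sum_cons, if_pos hp]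
    · rw [Multiset.filter_cons_of_neg _ hp, if_neg hp, zero_add]

lemma sum_swap {α : Type*} {d : ℕ} (F : Multiset α) (h : Fin d → α → ℕ) :
    (F.map (fun B => ∑ i, h i B)).sum = ∑ i, (F.map (h i)).sum := by
  induction F using Multiset.induction_on with
  | empty => simp
  | cons B F ih =>
    simp only [Multiset.map_cons, Multiset.sum_cons]
    rw [ih, ← Finset.sum_add_distrib]

section main

variable {n d : ℕ}

/-- number of boxes with odd value -/
def S (F : Multiset (Box n d)) (T : Fin d → Om n) : ℕ :=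
  (F.map (fun B => ∏ i, od (ev (T i) (B i)))).sum

/-- number of boxes with value two in direction `i` and odd in the other directions -/
def C (F : Multiset (Box n d)) (T : Fin d → Om n) (i : Fin d) : ℕ :=
  (F.map (fun B => tw (ev (T i) (B i)) * ∏ j ∈ Finset.univ.erase i, od (ev (T j) (B j)))).sum

lemma total (F : Multiset (Box n d)) (hF : IsDoubleCover n d F) (T : Fin d → Om n) :
    (F.map (fun B => ∏ i, ev (T i) (B i))).sum = 2 := by
  classical
  have h2 := sum_val (fun i => (T i).1) F
  unfold ev
  rw [h2]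
  have h4 : ∀ x : Fin d → Fin n, ((F.countP (fun B => ∀ i, x i ∈ B i) : ℕ) : ZMod 4) *
      ∏ i, (T i).1 (x i) = 2 * ∏ i, (T i).1 (x i) := by
    intro x
    rw [hF.2 x]; norm_num
  rw [Finset.sum_congr rfl (fun x _ => h4 x), ← Finset.mul_sum]
  have h5 : ∑ x : Fin d → Fin n, ∏ i, (T i).1 (x i) = ∏ i, ∑ j, (T i).1 j := by
    rw [Finset.prod_univ_sum, Fintype.piFinset_univ]
  rw [h5, Finset.prod_congr rfl (fun i _ => (T i).2), Finset.prod_const_one, mul_one]

lemma S_even (F : Multiset (Box n d)) (hF : IsDoubleCover n d F) (T : Fin d → Om n) :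
    Even (S F T) := by
  have h := even_od _ (total F hF T)
  rw [Multiset.map_map] at h
  unfold S
  convert h using 3
  exact (od_prod Finset.univ _).symm

lemma exists_C (F : Multiset (Box n d)) (hF : IsDoubleCover n d F) (T : Fin d → Om n)
    (h0 : S F T = 0) : ∃ i, Odd (C F T i) := by
  have h := odd_tw _ (total F hF T) (by
    intro v hv
    rw [Multiset.mem_map] at hv
    obtain ⟨B, hB, rfl⟩ := hv
    unfold S at h0
    rw [Multiset.sum_eq_zero_iff] at h0
    have := h0 _ (Multiset.mem_map_of_mem _ hB)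
    rw [od_prod]
    exact this)
  rw [Multiset.map_map] at h
  have h1 : (F.map (tw ∘ fun B => ∏ i, ev (T i) (B i))).sum = ∑ i, C F T i := by
    unfold C
    rw [← sum_swap]
    congr 1
    apply Multiset.map_congr rfl
    intro B _
    exact tw_prod Finset.univ _
  rw [h1] at h
  by_contra hcon
  push Not at hcon
  rw [← Nat.not_even_iff_odd] at h
  apply h
  apply Finset.even_sum
  intro i _
  exact Nat.not_odd_iff_even.1 (hcon i)

/-- bad event in direction `i` -/
def Z (F : Multiset (Box n d)) (i : Fin d) (T : Fin d → Om n) : ℕ :=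
  open Classical in if S F T = 0 ∧ Odd (C F T i) then 1 else 0

lemma pointwise (F : Multiset (Box n d)) (hF : IsDoubleCover n d F) (T : Fin d → Om n) :
    2 ≤ S F T + 2 * ∑ i, Z F i T := by
  classical
  by_cases h0 : S F T = 0
  · obtain ⟨i, hi⟩ := exists_C F hF T h0
    have h1 : 1 ≤ ∑ i, Z F i T := by
      calc 1 = Z F i T := by unfold Z; rw [if_pos ⟨h0, hi⟩]
        _ ≤ ∑ i, Z F i T := Finset.single_le_sum (f := fun i => Z F i T)
            (fun _ _ => Nat.zero_le _) (Finset.mem_univ i)
    omega
  · obtain ⟨k, hk⟩ := S_even F hF T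
    omega

lemma prod_od_le (s : Finset (Fin d)) (v : Fin d → ZMod 4) :
    ∏ i ∈ s, od (v i) = if (∀ i ∈ s, od (v i) = 1) then 1 else 0 := by
  classical
  by_cases h : ∀ i ∈ s, od (v i) = 1
  · rw [if_pos h]; exact Finset.prod_eq_one h
  · rw [if_neg h]
    push Not at h
    obtain ⟨i, hi, h1⟩ := h
    apply Finset.prod_eq_zero hi
    have : ∀ w : ZMod 4, od w ≠ 1 → od w = 0 := by decide
    exact this _ h1

/-- the sides in direction `i` of the boxes that are alive in the other directions -/
def side (F : Multiset (Box n d)) (i : Fin d) (T : Fin d → Om n) : Multiset (Finset (Fin n)) :=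
  open Classical in
  (F.filter (fun B => ∀ j ∈ Finset.univ.erase i, od (ev (T j) (B j)) = 1)).map (fun B => B i)

lemma S_update (F : Multiset (Box n d)) (i : Fin d) (T : Fin d → Om n) (t : Om n) :
    S F (Function.update T i t) = ((side F i T).map (fun A => od (ev t A))).sum := by
  classical
  unfold S side
  rw [Multiset.map_map, ← sum_ite_filter]
  congr 1
  apply Multiset.map_congr rfl
  intro B _
  rw [← Finset.mul_prod_erase Finset.univ _ (Finset.mem_univ i), Function.update_self]
  have h1 : ∏ j ∈ Finset.univ.erase i, od (ev (Function.update T i t j) (B j)) =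
      ∏ j ∈ Finset.univ.erase i, od (ev (T j) (B j)) := by
    apply Finset.prod_congr rfl
    intro j hj
    rw [Function.update_of_ne (Finset.ne_of_mem_erase hj)]
  rw [h1, prod_od_le (Finset.univ.erase i) (fun j => ev (T j) (B j))]
  split_ifs <;> simp

lemma C_update (F : Multiset (Box n d)) (i : Fin d) (T : Fin d → Om n) (t : Om n) :
    C F (Function.update T i t) i = ((side F i T).map (fun A => tw (ev t A))).sum := by
  classical
  unfold C side
  rw [Multiset.map_map, ← sum_ite_filter]
  congr 1
  apply Multiset.map_congr rfl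
  intro B _
  rw [Function.update_self]
  have h1 : ∏ j ∈ Finset.univ.erase i, od (ev (Function.update T i t j) (B j)) =
      ∏ j ∈ Finset.univ.erase i, od (ev (T j) (B j)) := by
    apply Finset.prod_congr rfl
    intro j hj
    rw [Function.update_of_ne (Finset.ne_of_mem_erase hj)]
  rw [h1, prod_od_le (Finset.univ.erase i) (fun j => ev (T j) (B j))]
  split_ifs <;> simp

lemma six (F : Multiset (Box n d)) (hF : IsDoubleCover n d F) (i : Fin d) (T : Fin d → Om n) :
    6 * ∑ t : Om n, Z F i (Function.update T i t) ≤ ∑ t : Om n, S F (Function.update T i t) := by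
  classical
  have h := line (side F i T) (by
    intro A hA
    unfold side at hA
    rw [Multiset.mem_map] at hA
    obtain ⟨B, hB, rfl⟩ := hA
    exact hF.1 B (Multiset.mem_of_mem_filter hB) i) (by
    intro t
    rw [← S_update]
    exact S_even F hF _)
  rw [Finset.sum_congr rfl (fun t _ => S_update F i T t)]
  refine le_trans (le_of_eq ?_) h
  congr 1
  rw [Finset.card_filter]
  apply Finset.sum_congr rfl
  intro t _
  unfold Z
  rw [S_update, C_update]

/-- **Lower bound, all `n`.** -/
theorem lower_all (n d : ℕ) (hn : 2 ≤ n) (F : Multiset (Box n d)) (hF : IsDoubleCover n d F) :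
    6 * 2 ^ d ≤ (d + 3) * Multiset.card F := by
  classical
  let a : Fin n := ⟨0, by omega⟩
  let b : Fin n := ⟨1, by omega⟩
  have hab : a ≠ b := by intro h; simpa [a, b] using congrArg Fin.val h
  have hS1 : ({a} : Finset (Fin n)).Nonempty := Finset.singleton_nonempty a
  have hS2 : ({a} : Finset (Fin n)) ≠ Finset.univ := by
    intro h
    have : b ∈ ({a} : Finset (Fin n)) := h ▸ Finset.mem_univ b
    exact hab (Finset.mem_singleton.1 this).symm
  obtain ⟨K, hK⟩ : ∃ K, K = ∑ t : Om n, od (ev t {a}) := ⟨_, rfl⟩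
  have hcard : Fintype.card (Om n) = 2 * K := by
    rw [← sum_od {a} hS1 hS2, hK]
  have hpos : 0 < K := by
    have : 0 < Fintype.card (Om n) := Fintype.card_pos_iff.2 ⟨pt a⟩
    omega
  have hod : ∀ A : Finset (Fin n), A.Nonempty → A ≠ Finset.univ → ∑ t : Om n, od (ev t A) = K := by
    intro A h1 h2
    have := sum_od A h1 h2
    omega
  -- the sum of `S`
  have hS : ∑ T : Fin d → Om n, S F T = Multiset.card F * K ^ d := by
    have h8 : ∀ G : Multiset (Box n d), (∀ B ∈ G, Proper B) →
        ∑ T : Fin d → Om n, S G T = Multiset.card G * K ^ d := by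
      intro G
      induction G using Multiset.induction_on with
      | empty => intro _; simp [S]
      | cons B G ih =>
        intro hG
        have h9 : ∀ T : Fin d → Om n, S (B ::ₘ G) T = (∏ i, od (ev (T i) (B i))) + S G T := by
          intro T
          simp [S]
        rw [Finset.sum_congr rfl (fun T _ => h9 T), Finset.sum_add_distrib,
          ih (fun C hC => hG C (Multiset.mem_cons_of_mem hC)), Multiset.card_cons]
        have h10 : ∑ T : Fin d → Om n, ∏ i, od (ev (T i) (B i)) = K ^ d := by
          have h11 : ∏ i : Fin d, ∑ t : Om n, od (ev t (B i)) = K ^ d := by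
            rw [Finset.prod_congr rfl (fun i _ => hod (B i)
              (hG B (Multiset.mem_cons_self _ _) i).1 (hG B (Multiset.mem_cons_self _ _) i).2),
              Finset.prod_const, Finset.card_univ, Fintype.card_fin]
          rw [← h11, Finset.prod_univ_sum, Fintype.piFinset_univ]
        rw [h10]; ring
    exact h8 F hF.1
  have hZ : ∀ i, 6 * ∑ T : Fin d → Om n, Z F i T ≤ ∑ T : Fin d → Om n, S F T := by
    intro i
    have h1 : 6 * ∑ T : Fin d → Om n, ∑ t : Om n, Z F i (Function.update T i t) ≤
        ∑ T : Fin d → Om n, ∑ t : Om n, S F (Function.update T i t) := by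
      rw [Finset.mul_sum]
      exact Finset.sum_le_sum fun T _ => six F hF i T
    rw [sum_update (Z F i) i, sum_update (S F) i] at h1
    have h2 : 0 < Fintype.card (Om n) := by omega
    have h3 : Fintype.card (Om n) * (6 * ∑ T : Fin d → Om n, Z F i T) ≤
        Fintype.card (Om n) * ∑ T : Fin d → Om n, S F T := by
      calc _ = 6 * (Fintype.card (Om n) * ∑ T : Fin d → Om n, Z F i T) := by ring
        _ ≤ _ := h1
    exact Nat.le_of_mul_le_mul_left h3 h2
  have hP : 2 * (2 * K) ^ d ≤ ∑ T : Fin d → Om n, S F T +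
      2 * ∑ i, ∑ T : Fin d → Om n, Z F i T := by
    calc 2 * (2 * K) ^ d = ∑ T : Fin d → Om n, 2 := by
          rw [Finset.sum_const, Finset.card_univ, Fintype.card_fun, hcard, Fintype.card_fin,
            smul_eq_mul, mul_comm]
      _ ≤ ∑ T : Fin d → Om n, (S F T + 2 * ∑ i, Z F i T) :=
          Finset.sum_le_sum fun T _ => pointwise F hF T
      _ = _ := by
          rw [Finset.sum_add_distrib, ← Finset.mul_sum, Finset.sum_comm]
  have hZs : 6 * ∑ i, ∑ T : Fin d → Om n, Z F i T ≤ d * ∑ T : Fin d → Om n, S F T := by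
    rw [Finset.mul_sum]
    calc ∑ i, 6 * ∑ T : Fin d → Om n, Z F i T ≤ ∑ i : Fin d, ∑ T : Fin d → Om n, S F T :=
          Finset.sum_le_sum fun i _ => hZ i
      _ = _ := by rw [Finset.sum_const, Finset.card_univ, Fintype.card_fin, smul_eq_mul]
  rw [hS] at hP hZs
  have hfin : (6 * 2 ^ d) * K ^ d ≤ ((d + 3) * Multiset.card F) * K ^ d := by
    have h1 : (2 * K) ^ d = 2 ^ d * K ^ d := mul_pow 2 K d
    rw [h1] at hP
    nlinarith
  exact Nat.le_of_mul_le_mul_right hfin (by positivity)

end main

/-- **Main result.** For every `n ≥ 2` and every `d`, every double cover `F` of `[n]^d` by proper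
boxes satisfies `6 * 2^d ≤ (d+3) * |F|`; in particular `2^d ≤ |F|` if `d ≤ 3`. -/
theorem result (n d : ℕ) (hn : 2 ≤ n) (F : Multiset (Box n d)) (hF : IsDoubleCover n d F) :
    6 * 2 ^ d ≤ (d + 3) * Multiset.card F ∧ (d ≤ 3 → 2 ^ d ≤ Multiset.card F) := by
  have h := lower_all n d hn F hF
  refine ⟨h, fun hd => ?_⟩
  have h2 : (d + 3) * Multiset.card F ≤ 6 * Multiset.card F :=
    Nat.mul_le_mul_right _ (by omega)
  omega

end Pool.Agent.Results.MP_7489fb_co.LowerAllN
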